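import Pool.Agent.Helper3.WA.Defs

/-! Project WA: statements of the pieces (stubs). -/

set_option autoImplicit false
set_option linter.unusedVariables false

namespace Pool.Agent.Helper3.WA.St

open Finset Filter
open Pool.Agent.Helper48.ET
open Pool.Agent.Helper3.WT (rp GG P0)
open Pool.Agent.Helper3.WA

section codes

variable {p : ℕ} [Fact p.Prime]

/-- WA-1 (the local step for general families; copy of `K.ls_step`, Helper48/ET/LocalSteps.lean) -/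
theorem ls_gen {C : ℕ} (hC : 8 ≤ C) (P : (ℕ → ZMod p) → (ℕ → ZMod p) → Prop)
    (L : Par p → (ℕ → ZMod p) → (ℕ → ZMod p) → Prop) (a : Om p)
    (h g ρ R0 T'' T' T R q' : ℕ) (h1 : T'' ≤ T') (h2 : T' ≤ T) (h3 : T' ≤ T'' + R)
    (hT : T ≤ 2 * C ^ 4) (hq' : q' ≤ C ^ h * (R0 + T')) (M W M' W' Λ' : ℕ → ℕ → Om p)
    (hMW : IsInv T M W)
    (ha : ∀ y z, P y z → ∀ j < T'', cell p C z h (R0 + j) =
      a * Qf T'' M' W' (fun k => cell p C y h (R0 + k)) j +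
        ∑ u ∈ range (R0 + T''), Λ' j u * cell p C y h u)
    (hb : ∀ θ : Par p, ∃ Λ : ℕ → ℕ → Om p, ∀ y z, L θ y z → ∀ j < T,
      cell p C z h (R0 + j) = θ.val none * Qf T M W (fun k => cell p C y h (R0 + k)) j +
        ∑ u ∈ range (R0 + T), Λ j u * cell p C y h u)
    (hc : ∀ y z, P y z → ∀ k, T' ≤ k → k < T → cell p C y h (R0 + k) = 0 ∧
      cell p C z h (R0 + k) = 0)
    (hd : ∀ (θ : Par p) (t w : ℕ → ZMod p), ∀ x ∈ SolG P (L θ) t w,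
      ∀ y ∈ SolG P (L θ) t w, trunc (C ^ h * R0) y = trunc (C ^ h * R0) x → ∀ r < R,
      ∑ k ∈ range T', θ.val (some (g, r + ρ, R0 + k)) * cell p C y h (R0 + k) =
        ∑ k ∈ range T', θ.val (some (g, r + ρ, R0 + k)) * cell p C x h (R0 + k)) :
    ∃ Q : MvPolynomial (Option (ℕ × ℕ × ℕ)) (Om p), Q ≠ 0 ∧ Q.totalDegree ≤ Del C ∧
      ∀ θ : Par p, MvPolynomial.eval θ.val Q ≠ 0 → ∀ t w : ℕ → ZMod p,
        (SolG P (L θ) t w).Finite →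
        FB (SolG P (L θ) t w) (C ^ h * R0) q' (N0 C) := by
  sorry

/-- WA-2 (copy of `step_shared`) -/
theorem shared_gen {C : ℕ} (hC : 8 ≤ C) (P L : (ℕ → ZMod p) → (ℕ → ZMod p) → Prop)
    {κ' κ i : ℕ} {θ' θ : Par p} (hP : ∀ x z, P x z → BlockRel C κ' θ' x z i)
    (hL : ∀ x z, L x z → BlockRel C κ θ x z i)
    (h1 : mm C κ' (i + 1) = mm C κ (i + 1)) (h2 : mm C κ' i = mm C κ i)
    (hlam : θ'.lam + θ.lam ≠ 0) (t w : ℕ → ZMod p) :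
    FB (SolG P L t w) (C ^ (i + 1) * mm C κ (i + 1)) (C ^ i * mm C κ i) 2 := by
  sorry

/-- WA-3 (copy of `step_merge`; from `ls_gen`) -/
theorem merge_gen {C : ℕ} (hC : 8 ≤ C) (P : (ℕ → ZMod p) → (ℕ → ZMod p) → Prop)
    (L : Par p → (ℕ → ZMod p) → (ℕ → ZMod p) → Prop) {n' n j : ℕ} (θ' : Par p)
    (hfin : ∀ (θ : Par p) (t w : ℕ → ZMod p), (SolG P (L θ) t w).Finite)
    (hP : ∀ x z, P x z → ∀ i, BlockRel C (2 * n' + 1) θ' x z i)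
    (hL : ∀ θ x z, L θ x z → ∀ i, BlockRel C (2 * n + 1) θ x z i)
    (h1 : mm C (2 * n' + 1) (j + 2) = mm C (2 * n + 1) (j + 2))
    (h2 : mm C (2 * n' + 1) j = mm C (2 * n + 1) j) :
    ∃ Q : MvPolynomial (Option (ℕ × ℕ × ℕ)) (Om p), Q ≠ 0 ∧ Q.totalDegree ≤ Del C ∧
      ∀ θ : Par p, MvPolynomial.eval θ.val Q ≠ 0 → ∀ t w : ℕ → ZMod p,
        FB (SolG P (L θ) t w) (C ^ (j + 2) * mm C (2 * n + 1) (j + 2))
          (C ^ j * mm C (2 * n + 1) j) (N0 C) := by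
  sorry

/-- WA-3 -/
theorem solG_finite {C n' : ℕ} {θ' : Par p} (L : (ℕ → ZMod p) → (ℕ → ZMod p) → Prop)
    (t w : ℕ → ZMod p) : (SolG (PW C n' θ') L t w).Finite := by
  sorry

/-- WA-4 (from `ls_gen`, as `step_bottom`): `h = 0`, `R = 0`, `T'' = T' = T = n + 1 - R0` -/
theorem near_final {C : ℕ} (hC : 8 ≤ C) {n s : ℕ} (θ' : Par p) (hs : s ≤ 1)
    (h1 : mm C (2 * n + 1) (s + 1) = mm C (2 * (n + 1) + 1) (s + 1)) :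
    ∃ Q : MvPolynomial (Option (ℕ × ℕ × ℕ)) (Om p), Q ≠ 0 ∧ Q.totalDegree ≤ Del C ∧
      ∀ θ : Par p, MvPolynomial.eval θ.val Q ≠ 0 → ∀ t w : ℕ → ZMod p,
        FB (SolG (PW C n θ') (LW C (n + 1) θ) t w)
          (C ^ (s + 1) * mm C (2 * (n + 1) + 1) (s + 1)) (n + 1) (N0 C) := by
  sorry

/-- WA-5 (from `ls_gen`, as `step_bottom` for `e ≤ 3` with `h = 0`, `R = 1`, `g = 0`, `ρ = 2`; as
`step_far` for `e ≥ 4` with `g = e - 3 ≥ 1`, `R = 2`, `ρ = 0`) -/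
theorem far_final {C : ℕ} (hC : 8 ≤ C) {n' n e s : ℕ} (θ' : Par p) (hn : n' + 2 ≤ n)
    (he : 1 ≤ e) (he1 : 2 * n + 1 ≤ 2 * n' + 1 + C ^ e) (he2 : 2 * n' + 1 + C ^ (e - 1) < 2 * n + 1)
    (hs : s + 1 = e ∨ s = e)
    (h1 : mm C (2 * n' + 1) (s + 1) = mm C (2 * n + 1) (s + 1)) :
    ∃ Q : MvPolynomial (Option (ℕ × ℕ × ℕ)) (Om p), Q ≠ 0 ∧ Q.totalDegree ≤ Del C ∧
      ∀ θ : Par p, MvPolynomial.eval θ.val Q ≠ 0 → ∀ t w : ℕ → ZMod p,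
        FB (SolG (PW C n' θ') (LW C n θ) t w)
          (C ^ (s + 1) * mm C (2 * n + 1) (s + 1)) (n' + 2) (N0 C) := by
  sorry

/-- WA-6 (assembly over the levels; copy of `pair_lt0`, Helper40/WT/PairZero.lean) -/
theorem pair_assemble {C n' n M q' : ℕ} (hC : 8 ≤ C) (hev : Even C) (hlt : n' < n) (hnM : n ≤ M)
    (θ' : Par p) (S : Par p → (ℕ → ZMod p) → (ℕ → ZMod p) → Set (ℕ → ZMod p))
    (hfin : ∀ θ t w, (S θ t w).Finite)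
    (hshared : ∀ θ : Par p, θ'.lam + θ.lam ≠ 0 → ∀ (t w : ℕ → ZMod p) (i : ℕ),
      mm C (2 * n' + 1) (i + 1) = mm C (2 * n + 1) (i + 1) →
      mm C (2 * n' + 1) i = mm C (2 * n + 1) i →
      FB (S θ t w) (C ^ (i + 1) * mm C (2 * n + 1) (i + 1)) (C ^ i * mm C (2 * n + 1) i) 2)
    (hmerge : ∀ j, mm C (2 * n' + 1) (j + 2) = mm C (2 * n + 1) (j + 2) →
      mm C (2 * n' + 1) j = mm C (2 * n + 1) j →
      ∃ Q : MvPolynomial (Option (ℕ × ℕ × ℕ)) (Om p), Q ≠ 0 ∧ Q.totalDegree ≤ Del C ∧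
        ∀ θ : Par p, MvPolynomial.eval θ.val Q ≠ 0 → ∀ t w : ℕ → ZMod p,
          FB (S θ t w) (C ^ (j + 2) * mm C (2 * n + 1) (j + 2)) (C ^ j * mm C (2 * n + 1) j)
            (N0 C))
    (hfinal : ∀ e s, 1 ≤ e → 2 * n + 1 ≤ 2 * n' + 1 + C ^ e →
      2 * n' + 1 + C ^ (e - 1) < 2 * n + 1 → (s + 1 = e ∨ s = e) →
      mm C (2 * n' + 1) (s + 1) = mm C (2 * n + 1) (s + 1) →
      ∃ Q : MvPolynomial (Option (ℕ × ℕ × ℕ)) (Om p), Q ≠ 0 ∧ Q.totalDegree ≤ Del C ∧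
        ∀ θ : Par p, MvPolynomial.eval θ.val Q ≠ 0 → ∀ t w : ℕ → ZMod p,
          FB (S θ t w) (C ^ (s + 1) * mm C (2 * n + 1) (s + 1)) q' (N0 C)) :
    ∃ Q : MvPolynomial (Option (ℕ × ℕ × ℕ)) (Om p), Q ≠ 0 ∧ Q.totalDegree ≤ 2 * Del C + 1 ∧
      ∀ θ : Par p, MvPolynomial.eval θ.val Q ≠ 0 → ∀ t w : ℕ → ZMod p,
        (trunc q' '' S θ t w).ncard ≤ GG C M := by
  sorry

/-- WA-7 (from WA-2, 3, 4, 6) -/
theorem pair_near {C n M : ℕ} (hC : 8 ≤ C) (hev : Even C) (hnM : n + 1 ≤ M) (θ' : Par p) :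
    ∃ Q : MvPolynomial (Option (ℕ × ℕ × ℕ)) (Om p), Q ≠ 0 ∧ Q.totalDegree ≤ 2 * Del C + 1 ∧
      ∀ θ : Par p, MvPolynomial.eval θ.val Q ≠ 0 → ∀ t w : ℕ → ZMod p,
        (trunc (n + 1) '' SolG (PW C n θ') (LW C (n + 1) θ) t w).ncard ≤ GG C M := by
  sorry

/-- WA-7 (from WA-2, 3, 5, 6) -/
theorem pair_far {C n' n M : ℕ} (hC : 8 ≤ C) (hev : Even C) (hn : n' + 2 ≤ n) (hnM : n ≤ M)
    (θ' : Par p) :
    ∃ Q : MvPolynomial (Option (ℕ × ℕ × ℕ)) (Om p), Q ≠ 0 ∧ Q.totalDegree ≤ 2 * Del C + 1 ∧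
      ∀ θ : Par p, MvPolynomial.eval θ.val Q ≠ 0 → ∀ t w : ℕ → ZMod p,
        (SolG (PW C n' θ') (LW C n θ) t w).ncard ≤ GG C M := by
  sorry

/-- WA-8 (as `pair_self`, with one more quadratic equation for the last digit) -/
theorem pair_same {C n M : ℕ} (hC : 8 ≤ C) (hnM : n ≤ M) (hp : p ≠ 2) (θ : Par p)
    (hlam : θ.lam ≠ 0) (t w : ℕ → ZMod p) :
    (SolG (LW C n θ) (LW C n θ) t w).ncard ≤ GG C M := by
  sorry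

/-- WA-9 (choice of the parameters, as `select_of`; `SelAux.strong_choice`, `exists_eval_ne_zero`
in Helper48/ET/SelectOf.lean) -/
theorem select_wa {C M : ℕ} (hC : 8 ≤ C) (hev : Even C) (hp : P0 C M < p) :
    ∃ θ : ℕ → Par p, (∀ n ≤ M, (θ n).lam ≠ 0 ∧ (θ n).tau 0 2 0 ≠ 0) ∧
      (∀ n, n + 1 ≤ M → ∀ t w : ℕ → ZMod p,
        (trunc (n + 1) '' SolG (PW C n (θ n)) (LW C (n + 1) (θ (n + 1))) t w).ncard ≤ GG C M) ∧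
      (∀ n' n, n' + 2 ≤ n → n ≤ M → ∀ t w : ℕ → ZMod p,
        (SolG (PW C n' (θ n')) (LW C n (θ n)) t w).ncard ≤ GG C M) ∧
      (∀ n ≤ M, ∀ t w : ℕ → ZMod p,
        (SolG (LW C n (θ n)) (LW C n (θ n)) t w).ncard ≤ GG C M) := by
  sorry

/-- WA-10 (existence and uniqueness of the `z`-part, from `code_exists`, `code_unique`) -/
theorem lw_exists {C : ℕ} (hC : 2 ≤ C) (n : ℕ) (θ : Par p) (x : ℕ → ZMod p)
    (hx : ∀ u, n < u → x u = 0) : ∃ z, LW C n θ x z := by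
  sorry

/-- WA-10 -/
theorem lw_unique {C : ℕ} (hC : 2 ≤ C) {n : ℕ} {θ : Par p} {x z z' : ℕ → ZMod p}
    (h : LW C n θ x z) (h' : LW C n θ x z') : z = z' := by
  sorry

/-- WA-10: the `z`-digits `≤ n` of a `PW` word are determined by `x` -/
theorem pw_unique {C : ℕ} (hC : 2 ≤ C) {n : ℕ} {θ : Par p} {x z z' : ℕ → ZMod p}
    (h : PW C n θ x z) (h' : PW C n θ x z') : ∀ u, u ≤ n → z u = z' u := by
  sorry

/-- WA-11 (number of words with a label) -/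
theorem wdl_card {C : ℕ} (hC : 2 ≤ C) (n : ℕ) (θ : Par p) {β ℓ : ℕ} (h : ℓ + β ≤ p) :
    β * p ^ n ≤ (WdL C n θ β ℓ).ncard := by
  sorry

/-- WA-11 -/
theorem wrl_card {C : ℕ} (hC : 2 ≤ C) (n : ℕ) (θ : Par p) {β ℓ : ℕ} (h : ℓ + β ≤ p)
    (R : Set ℕ) (y : ℕ) :
    β * p ^ n * (R ∩ Set.Iio y).ncard ≤
      (WRL C n θ R β ℓ ∩ Set.Iio ((2 * p) ^ (2 * (n + 1)) * y)).ncard := by
  sorry

/-- WA-12 -/
theorem rp_wd_same {C n B : ℕ} (hC : 2 ≤ C) {θ : Par p}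
    (h : ∀ t w : ℕ → ZMod p, (SolG (LW C n θ) (LW C n θ) t w).ncard ≤ B) (m : ℕ) :
    rp (Wd C n θ) (Wd C n θ) m ≤ B := by
  sorry

/-- WA-12 -/
theorem rp_wd_far {C n' n B l H : ℕ} (hC : 2 ≤ C) {θ' θ : Par p} (hn : n' + 2 ≤ n)
    (h : ∀ t w : ℕ → ZMod p, (SolG (PW C n' θ') (LW C n θ) t w).ncard ≤ B) {R : Set ℕ}
    (hR : RSet p l H R) (m : ℕ) : rp (Wd C n θ) (WR C n' θ' R) m ≤ B := by
  sorry

/-- WA-13 -/
theorem rp_wd_near {C n B l H : ℕ} (hC : 2 ≤ C) {θ' θ : Par p} (hlam : θ.lam ≠ 0)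
    (h : ∀ t w : ℕ → ZMod p,
      (trunc (n + 1) '' SolG (PW C n θ') (LW C (n + 1) θ) t w).ncard ≤ B) {R : Set ℕ}
    (hR : RSet p l H R) (m : ℕ) : rp (Wd C (n + 1) θ) (WR C n θ' R) m ≤ B * H := by
  sorry

/-- WA-13 -/
theorem rp_wd_zero {C n l H : ℕ} (hC : 2 ≤ C) {θ : Par p} (hlam : θ.lam ≠ 0)
    (htau : θ.tau 0 2 0 ≠ 0) {R : Set ℕ} (hR : RSet p l H R) (hH : 1 ≤ H) (m : ℕ) :
    rp (Wd C n θ) R m ≤ H := by
  sorry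

end codes

/-- WA-14 (successive choice with a potential function) -/
theorem adaptive {k : ℕ} (I : ℕ → Finset ℕ) (hI : ∀ i < k, (I i).Nonempty) {J : Type}
    (s : Finset J) (B : J → ℕ → (ℕ → ℕ) → Finset ℕ)
    (hB : ∀ j ∈ s, ∀ i < k, ∀ f, B j i f ⊆ I i)
    (hloc : ∀ j ∈ s, ∀ i < k, ∀ f g : ℕ → ℕ, (∀ i' < i, f i' = g i') → B j i f = B j i g)
    (b : J → ℕ → ℝ) (hb : ∀ j ∈ s, ∀ i < k, ∀ f : ℕ → ℕ, (∀ i' < i, f i' ∈ I i') →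
      ((B j i f).card : ℝ) ≤ b j i * (I i).card)
    (hb0 : ∀ j ∈ s, ∀ i < k, 0 ≤ b j i) (A : ℝ) (hA : 1 ≤ A) (y : ℕ)
    (hsum : ∑ j ∈ s, Real.exp (A * ∑ i ∈ range k, b j i) / A ^ y < 1) :
    ∃ f : ℕ → ℕ, (∀ i < k, f i ∈ I i) ∧
      ∀ j ∈ s, ((range k).filter (fun i => f i ∈ B j i f)).card < y := by
  sorry

/-- WA-15 (the random set; from `adaptive`) -/
theorem rset_exists {p l d : ℕ} [Fact p.Prime] (hd : p ≤ 2 ^ (d + 1)) (hl : 6 ≤ l) :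
    ∃ R : Set ℕ, RSet p l (16 * (d / l) + 32) R := by
  sorry

/-- WA-16 (one component, from WA-9 ... WA-15 and `rp_stack`, `rp_mono`, `rp_comm` of WT) -/
theorem comp_exists {C M p d l : ℕ} (hC : 8 ≤ C) (hev : Even C) (hM : 2 ≤ M) (hpp : p.Prime)
    (hp : P0 C M < p) (hMp : 4 * M ≤ p) (hd : p ≤ 2 ^ (d + 1)) (hl : 6 ≤ l) :
    ∃ (T : Set ℕ) (S : ℕ → Set ℕ),
      CompA p M (GG C M) (16 * (d / l) + 32) (p / (2 * M)) l T S := by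
  sorry

section sys

variable (σ : SysA)

/-- WA-17 -/
theorem W_pos (k : ℕ) : 0 < σ.W k := by
  sorry

/-- WA-17 -/
theorem low_lt (k : ℕ) : ∀ l ∈ σ.Low k, 2 * l < σ.W k := by
  sorry

/-- WA-17 -/
theorem part_lt {k N : ℕ} (hN : N < σ.M k) : ∀ a ∈ σ.Part k N,
    2 * a < σ.W k * (2 * σ.p k) ^ (2 * (N + 1)) := by
  sorry

/-- WA-17 -/
theorem part_ge {k N : ℕ} (hN : N < σ.M k) : ∀ a ∈ σ.Part k N,
    σ.W k * (2 * σ.p k) ^ (2 * N) ≤ a := by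
  sorry

/-- WA-17 -/
theorem part_lt_W {k N K : ℕ} (hN : N < σ.M k) (hk : k < K) : ∀ a ∈ σ.Part k N,
    2 * a < σ.W K := by
  sorry

/-- WA-18 -/
theorem rp_low (k n : ℕ) : rp (σ.Low k) (σ.Low k) n ≤ ∏ j ∈ range k, σ.G j := by
  sorry

/-- WA-18 -/
theorem rp_low_part {k k' N' : ℕ} (hk : k' < k) (hN : N' < σ.M k') (n : ℕ) :
    rp (σ.Low k) (σ.Part k' N') n ≤ (∏ j ∈ range k, σ.G j) * σ.H k' := by
  sorry

/-- WA-18 -/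
theorem rp_part_part {k k' N N' : ℕ} (hkN : k' < k ∨ (k' = k ∧ N' ≤ N))
    (hN : N < σ.M k) (hN' : N' < σ.M k') (n : ℕ) :
    rp (σ.Part k N) (σ.Part k' N') n ≤ (∏ j ∈ range (k + 1), σ.G j) * σ.H k' := by
  sorry

/-- WA-19: the type of the larger summand is determined by the sum -/
theorem top_unique {k k' N N' l l' O O' : ℕ} (hkN : k' < k ∨ (k' = k ∧ N' ≤ N))
    (hN : N < σ.M k) (hN' : N' < σ.M k') (hlO : l' < l ∨ (l' = l ∧ O' ≤ O))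
    (hO : O < σ.M l) (hO' : O' < σ.M l')
    {a b a2 b2 : ℕ} (ha : a ∈ σ.Part k N) (hb : b ∈ σ.Part k' N') (ha2 : a2 ∈ σ.Part l O)
    (hb2 : b2 ∈ σ.Part l' O') (h : a + b = a2 + b2) : k = l ∧ N = O := by
  sorry

/-- WA-19: given the component of the smaller summand, its length is determined unless it is `0` -/
theorem label_unique {k k' N N' O' : ℕ} (hkN : k' < k ∨ (k' = k ∧ N' ≤ N))
    (hkO : k' < k ∨ (k' = k ∧ O' ≤ N))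
    (hN : N < σ.M k) (h1 : 1 ≤ N') (hN' : N' < σ.M k') (h1' : 1 ≤ O') (hO' : O' < σ.M k')
    {a b a2 b2 : ℕ} (ha : a ∈ σ.Part k N) (hb : b ∈ σ.Part k' N') (ha2 : a2 ∈ σ.Part k N)
    (hb2 : b2 ∈ σ.Part k' O') (h : a + b = a2 + b2) : N' = O' := by
  sorry

/-- WA-20 (from WA-18, WA-19): at most `2 (K + 1)` types of the smaller summand -/
theorem rp_A {K n h : ℕ} (hn : n < σ.W (K + 1)) (hH : ∀ j ≤ K, σ.H j ≤ h) :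
    rp σ.A σ.A n ≤ 4 * (K + 1) * (∏ j ∈ range (K + 1), σ.G j) * h := by
  sorry

/-- WA-21 -/
theorem part_card {k N y : ℕ} (hN : N < σ.M k) (hy : 2 ^ (2 * σ.l k + 8) ≤ y)
    (hy2 : y ≤ (2 * σ.p k) ^ 2) :
    y * (σ.cl k * cw (σ.p k) (σ.β k) N) ^ 2 ≤
      (2 ^ (σ.l k + 3) *
        (σ.Part k N ∩ Set.Iio (σ.W k * (2 * σ.p k) ^ (2 * N) * y)).ncard) ^ 2 := by
  sorry

end sys

/-- WA-22: the sequences of parameters (as `params` of WT, Helper85/WT/C1.lean) -/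
theorem paramsA (m0 : ℕ) : ∃ j C : ℕ → ℕ, m0 ≤ j 0 ∧ (∀ k, 8 ≤ C k) ∧ (∀ k, Even (C k)) ∧
    (∀ k, j k < j (k + 1)) ∧
    (∀ k, P0 (C k) (2 ^ j (k + 1)) < 2 ^ 2 ^ (j k / 2)) ∧
    (∀ e : ℝ, 0 < e → ∀ᶠ k in atTop, (j (k + 1) : ℝ) ≤ (1 + e) * j k) ∧
    (∀ e : ℝ, 0 < e → ∀ᶠ k in atTop,
      ∑ i ∈ range (k + 1), Real.logb 2 (GG (C i) (2 ^ j (i + 1)) : ℝ) ≤ e * j k) := by
  sorry

/-- WA-23 (Bertrand, `comp_exists`, `paramsA`) -/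
theorem sys_exists {α : ℝ} (h0 : 0 < α) (h1 : α ≤ 1 / 2) : ∃ (σ : SysA) (j : ℕ → ℕ),
    SizedA α σ j ∧
    (∀ e : ℝ, 0 < e → ∀ᶠ k in atTop, (j (k + 1) : ℝ) ≤ (1 + e) * j k) ∧
    (∀ e : ℝ, 0 < e → ∀ᶠ k in atTop,
      ∑ i ∈ range (k + 1), Real.logb 2 (σ.G i : ℝ) ≤ e * j k) := by
  sorry

/-- WA-24 -/
theorem upper {α : ℝ} (h0 : 0 < α) (h1 : α ≤ 1 / 2) {σ : SysA} {j : ℕ → ℕ} (hs : SizedA α σ j)
    (hG : ∀ e : ℝ, 0 < e → ∀ᶠ k in atTop,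
      ∑ i ∈ range (k + 1), Real.logb 2 (σ.G i : ℝ) ≤ e * j k)
    (hrep : ∀ K n h, n < σ.W (K + 1) → (∀ i ≤ K, σ.H i ≤ h) →
      rp σ.A σ.A n ≤ 4 * (K + 1) * (∏ i ∈ range (K + 1), σ.G i) * h) :
    ∀ e : ℝ, 0 < e → ∀ᶠ m : ℕ in atTop, (rp σ.A σ.A m : ℝ) ≤ Real.log m ^ (1 - 2 * α + e) := by
  sorry

/-- WA-25: every large `x` has a component, a length and a size of the partial digit with small
loss -/
theorem lower_comb (σ : SysA) {x : ℕ} (hx : σ.W 1 * 2 ^ (2 * σ.l 1 + 8) ≤ x)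
    (hl : ∀ k, 2 ^ (2 * σ.l k + 8) ≤ (2 * σ.p k) ^ 2) (hmono : ∀ k, σ.l k ≤ σ.l (k + 1)) :
    ∃ K N y, 1 ≤ K ∧ N < σ.M K ∧ 2 ^ (2 * σ.l K + 8) ≤ y ∧ y ≤ (2 * σ.p K) ^ 2 ∧
      σ.W K * (2 * σ.p K) ^ (2 * N) * y ≤ x ∧ x < σ.W (K + 2) ∧
      x ≤ (2 ^ (∑ i ∈ range K, σ.M i + N + σ.l K + σ.l (K + 1) + 4) *
        (∏ i ∈ range (K + 1), 4 * σ.M i) * (σ.cl K * cw (σ.p K) (σ.β K) N)) ^ 2 * y := by
  sorry

/-- WA-26: analysis of the loss -/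
theorem loss {α : ℝ} (h0 : 0 < α) (h1 : α ≤ 1 / 2) {σ : SysA} {j : ℕ → ℕ} (hs : SizedA α σ j)
    (hr : ∀ e : ℝ, 0 < e → ∀ᶠ k in atTop, (j (k + 1) : ℝ) ≤ (1 + e) * j k) :
    ∀ e : ℝ, 0 < e → ∀ᶠ x : ℕ in atTop, ∀ K N, 1 ≤ K → N < σ.M K →
      σ.W K ≤ x → x < σ.W (K + 2) →
      (2 : ℝ) ^ (∑ i ∈ range K, σ.M i + N + 2 * σ.l K + σ.l (K + 1) + 7) *
        (∏ i ∈ range (K + 1), 4 * (σ.M i : ℝ)) ≤ Real.exp (Real.log x ^ (α + e)) := by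
  sorry

/-- WA-27 -/
theorem lower {α : ℝ} (h0 : 0 < α) (h1 : α ≤ 1 / 2) {σ : SysA} {j : ℕ → ℕ} (hs : SizedA α σ j)
    (hr : ∀ e : ℝ, 0 < e → ∀ᶠ k in atTop, (j (k + 1) : ℝ) ≤ (1 + e) * j k) :
    ∀ e : ℝ, 0 < e → ∀ᶠ x : ℕ in atTop,
      Real.sqrt x * Real.exp (-(Real.log x ^ (α + e))) ≤ ((σ.A ∩ Set.Iio x).ncard : ℝ) := by
  sorry

/-- the theorem -/
theorem main {α : ℝ} (h0 : 0 < α) (h1 : α ≤ 1 / 2) : ∃ A : Set ℕ, ∀ e : ℝ, 0 < e →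
    (∀ᶠ n : ℕ in atTop, (rp A A n : ℝ) ≤ Real.log n ^ (1 - 2 * α + e)) ∧
    ∀ᶠ x : ℕ in atTop,
      Real.sqrt x * Real.exp (-(Real.log x ^ (α + e))) ≤ ((A ∩ Set.Iio x).ncard : ℝ) := by
  obtain ⟨σ, j, hs, hr, hG⟩ := sys_exists h0 h1
  exact ⟨σ.A, fun e he => ⟨upper h0 h1 hs hG (fun K n h hn hH => rp_A σ hn hH) e he,
    lower h0 h1 hs hr e he⟩⟩

end Pool.Agent.Helper3.WA.St
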